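import Pool.Agent.LPW.StmtsE
import Pool.Agent.Helper42_LUB.CLA
import Pool.Agent.Helper79_LUB.PCS

/-!
# Squad LPW, module CL2: the universal two-parameter family of a class
-/

set_option autoImplicit false

open Polynomial
open Pool.Agent.LUB (LogMod EvhStmt EllStmt UnpConcl)
open Pool.Agent.LUB.H42 (C_dvd_of_map mk_eq_of_dvd logMod_map)

namespace Pool.Agent.LPW.H42

noncomputable section

/-- The universal polynomial. -/
def FF {S : Type} [CommRing S] (n r D : ℕ) (c : Idx2 n r D → S) (T : Fin 2 → S) : S[X] :=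
  X ^ n + ∑ j : Fin n, C (∑ k : Fin (D + 1), ∑ l : Fin (D + 1),
    c (Sum.inl (j, k, l)) * (T 0 ^ (k : ℕ) * T 1 ^ (l : ℕ))) * X ^ (j : ℕ)

/-- The universal units. -/
def UU {S : Type} [CommRing S] (n r D : ℕ) (c : Idx2 n r D → S) (T : Fin 2 → S) (i : Fin r) :
    S[X] :=
  ∑ j : Fin (D + 1), C (∑ k : Fin (D + 1), ∑ l : Fin (D + 1),
    c (Sum.inr (i, j, k, l)) * (T 0 ^ (k : ℕ) * T 1 ^ (l : ℕ))) * X ^ (j : ℕ)

theorem FF_map {S S' : Type} [CommRing S] [CommRing S'] (φ : S →+* S') (n r D : ℕ)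
    (c : Idx2 n r D → S) (T : Fin 2 → S) :
    (FF n r D c T).map φ = FF n r D (fun s => φ (c s)) (fun i => φ (T i)) := by
  simp only [FF, Polynomial.map_add, Polynomial.map_pow, map_X, Polynomial.map_sum,
    Polynomial.map_mul, map_C, map_sum, map_mul, map_pow]

theorem UU_map {S S' : Type} [CommRing S] [CommRing S'] (φ : S →+* S') (n r D : ℕ)
    (c : Idx2 n r D → S) (T : Fin 2 → S) (i : Fin r) :
    (UU n r D c T i).map φ = UU n r D (fun s => φ (c s)) (fun i => φ (T i)) i := by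
  simp only [UU, Polynomial.map_pow, map_X, Polynomial.map_sum,
    Polynomial.map_mul, map_C, map_sum, map_mul, map_pow]

theorem FF_deg {S : Type} [CommRing S] (n r D : ℕ) (c : Idx2 n r D → S) (T : Fin 2 → S) :
    (∑ j : Fin n, C (∑ k : Fin (D + 1), ∑ l : Fin (D + 1),
      c (Sum.inl (j, k, l)) * (T 0 ^ (k : ℕ) * T 1 ^ (l : ℕ))) * X ^ (j : ℕ) : S[X]).degree < n := by
  exact degree_sum_fin_lt (fun j : Fin n => ∑ k : Fin (D + 1), ∑ l : Fin (D + 1),
    c (Sum.inl (j, k, l)) * (T 0 ^ (k : ℕ) * T 1 ^ (l : ℕ)))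

theorem FF_monic {S : Type} [CommRing S] (n r D : ℕ) (c : Idx2 n r D → S) (T : Fin 2 → S) :
    (FF n r D c T).Monic := by
  unfold FF
  exact monic_X_pow_add (FF_deg n r D c T)

theorem FF_degree {S : Type} [CommRing S] [Nontrivial S] (n r D : ℕ) (c : Idx2 n r D → S)
    (T : Fin 2 → S) : (FF n r D c T).degree = n := by
  unfold FF
  rw [degree_add_eq_left_of_degree_lt]
  · exact degree_X_pow n
  · rw [degree_X_pow]
    exact FF_deg n r D c T

theorem FF_cong {S : Type} [CommRing S] (n r D : ℕ) (q : S) (c c' : Idx2 n r D → S)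
    (T T' : Fin 2 → S) (hc : ∀ s, q ∣ c s - c' s) (hT : ∀ i, q ∣ T i - T' i) :
    C q ∣ FF n r D c T - FF n r D c' T' := by
  apply C_dvd_of_map
  rw [FF_map, FF_map]
  congr 1
  · funext s
    exact mk_eq_of_dvd q _ _ (hc s)
  · funext i
    exact mk_eq_of_dvd q _ _ (hT i)

theorem UU_cong {S : Type} [CommRing S] (n r D : ℕ) (q : S) (c c' : Idx2 n r D → S)
    (T T' : Fin 2 → S) (hc : ∀ s, q ∣ c s - c' s) (hT : ∀ i, q ∣ T i - T' i) (i : Fin r) :
    C q ∣ UU n r D c T i - UU n r D c' T' i := by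
  apply C_dvd_of_map
  rw [UU_map, UU_map]
  congr 1
  · funext s
    exact mk_eq_of_dvd q _ _ (hc s)
  · funext i
    exact mk_eq_of_dvd q _ _ (hT i)

theorem eval_coeff {S : Type} [CommRing S] (D : ℕ) (g : MvPolynomial (Fin 2) ℤ)
    (hg : g.totalDegree ≤ D) (T : Fin 2 → S) :
    MvPolynomial.eval₂Hom (Int.castRingHom S) T g = ∑ k : Fin (D + 1), ∑ l : Fin (D + 1),
      ((MvPolynomial.coeff (Finsupp.single 0 (k : ℕ) + Finsupp.single 1 (l : ℕ)) g : ℤ) : S) *
        (T 0 ^ (k : ℕ) * T 1 ^ (l : ℕ)) := by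
  rw [MvPolynomial.coe_eval₂Hom, MvPolynomial.eval₂_eq', ← Fintype.sum_prod_type']
  set j : Fin (D + 1) × Fin (D + 1) → Fin 2 →₀ ℕ := fun x =>
    Finsupp.single 0 (x.1 : ℕ) + Finsupp.single 1 (x.2 : ℕ) with hj
  have hj0 : ∀ x, j x 0 = x.1 := fun x => by simp [hj]
  have hj1 : ∀ x, j x 1 = x.2 := fun x => by simp [hj]
  have hinj : Function.Injective j := by
    intro x y h
    have h0 := congrArg (fun m => m 0) h
    have h1 := congrArg (fun m => m 1) h
    simp only [hj0, hj1] at h0 h1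
    exact Prod.ext (Fin.ext h0) (Fin.ext h1)
  have hsub : g.support ⊆ Finset.univ.image j := by
    intro m hm
    have h1 := MvPolynomial.le_totalDegree hm
    have h2 : m 0 + m 1 ≤ D := by
      have h3 : (m.sum fun _ e => e) = m 0 + m 1 := by
        rw [Finsupp.sum_fintype _ _ (fun _ => rfl), Fin.sum_univ_two]
      omega
    refine Finset.mem_image.2 ⟨(⟨m 0, by omega⟩, ⟨m 1, by omega⟩), Finset.mem_univ _, ?_⟩
    ext i
    fin_cases i
    · simpa using hj0 (⟨m 0, by omega⟩, ⟨m 1, by omega⟩)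
    · simpa using hj1 (⟨m 0, by omega⟩, ⟨m 1, by omega⟩)
  rw [Finset.sum_subset hsub]
  · rw [Finset.sum_image (fun x _ y _ h => hinj h)]
    refine Finset.sum_congr rfl fun x _ => ?_
    rw [Fin.prod_univ_two, hj0, hj1]
    rfl
  · intro m _ hm
    rw [MvPolynomial.notMem_support_iff.1 hm]
    simp

theorem spr_f {S : Type} [CommRing S] (n r D : ℕ) (f : (MvPolynomial (Fin 2) ℤ)[X])
    (u : Fin r → (MvPolynomial (Fin 2) ℤ)[X]) (h : Fam2 n D f u) (T : Fin 2 → S) :
    spr2 f T = FF n r D (fun s => (par2 n D f u s : S)) T := by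
  obtain ⟨h1, h2, h3, h4⟩ := h
  have h5 := h1.as_sum
  rw [h2] at h5
  unfold spr2
  conv_lhs => rw [h5]
  simp only [FF, Polynomial.map_add, Polynomial.map_pow, map_X, Polynomial.map_sum,
    Polynomial.map_mul, map_C, Finset.sum_range]
  congr 1
  refine Finset.sum_congr rfl fun j _ => ?_
  rw [eval_coeff D _ (h3 j)]
  rfl

theorem spr_u {S : Type} [CommRing S] (n r D : ℕ) (f : (MvPolynomial (Fin 2) ℤ)[X])
    (u : Fin r → (MvPolynomial (Fin 2) ℤ)[X]) (h : Fam2 n D f u) (T : Fin 2 → S) (i : Fin r) :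
    spr2 (u i) T = UU n r D (fun s => (par2 n D f u s : S)) T i := by
  obtain ⟨h1, h2, h3, h4⟩ := h
  have h5 := as_sum_range' (u i) (D + 1) (Nat.lt_succ_of_le (h4 i).1)
  unfold spr2
  conv_lhs => rw [h5]
  simp only [UU, Polynomial.map_sum, Finset.sum_range]
  refine Finset.sum_congr rfl fun j _ => ?_
  rw [map_monomial, ← C_mul_X_pow_eq_monomial, eval_coeff D _ ((h4 i).2 j)]
  rfl

theorem cl2 : Cl2Stmt := by
  intro hevh hell hunp p _ n r D a T₁ hex
  obtain ⟨f₀, u₀, ⟨hfam₀, hcls₀⟩, t, ht, hunit⟩ := hex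
  -- the polynomials over the integers
  have hp3 : (p : ℤ) ∣ (p : ℤ) ^ 3 := dvd_pow_self _ (by norm_num)
  obtain ⟨M, hM, hMU⟩ := hunp p r (FF n r D a T₁) (fun i => UU n r D a T₁ i) (FF_monic n r D a T₁) (by
    intro i
    obtain ⟨A, B, hAB⟩ := hunit i
    have h1 : C (p : ℤ) ∣ FF n r D (fun s => ((par2 n D f₀ u₀ s : ℤ) : ℤ)) t - FF n r D a T₁ :=
      FF_cong n r D (p : ℤ) _ _ _ _ (fun s => dvd_trans hp3 (hcls₀ s)) (fun i => dvd_trans hp3 (ht i))
    have h2 : C (p : ℤ) ∣ UU n r D (fun s => ((par2 n D f₀ u₀ s : ℤ) : ℤ)) t i - UU n r D a T₁ i :=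
      UU_cong n r D (p : ℤ) _ _ _ _ (fun s => dvd_trans hp3 (hcls₀ s)) (fun i => dvd_trans hp3 (ht i)) i
    have h3 := spr_f n r D f₀ u₀ hfam₀ t
    have h4 := spr_u n r D f₀ u₀ hfam₀ t i
    rw [h3, h4] at hAB
    obtain ⟨e, he⟩ := h1
    obtain ⟨e', he'⟩ := h2
    refine ⟨A, B, -(e' * A + e * B), ?_⟩
    simp only [Int.cast_id] at he he' hAB
    linear_combination hAB - he * B - he' * A)
  -- the universal ring
  set R := MvPowerSeries (Idx2 n r D) ℤ_[p] with hR
  set S := PowerSeries (PowerSeries R) with hS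
  set Xu : Fin 2 → S := ![PowerSeries.C PowerSeries.X, PowerSeries.X] with hXu
  set Tu : Fin 2 → S := fun i => (T₁ i : S) + (p : S) ^ 2 * Xu i with hTu
  set A : Idx2 n r D → S := fun s => (a s : S) + (p : S) ^ 2 * PowerSeries.C (PowerSeries.C (MvPowerSeries.X s))
    with hA
  set F : S[X] := FF n r D A Tu with hF
  have hFc : C ((p : S) ^ 2) ∣ F - (FF n r D a T₁).map (Int.castRingHom S) := by
    rw [FF_map]
    refine FF_cong n r D _ _ _ _ _ (fun s => ?_) ?_
    · exact ⟨PowerSeries.C (PowerSeries.C (MvPowerSeries.X s)), by simp [hA]⟩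
    · intro i
      exact ⟨Xu i, by simp [hTu]⟩
  have hUc : ∀ i, C ((p : S) ^ 2) ∣ UU n r D A Tu i - (UU n r D a T₁ i).map (Int.castRingHom S) := by
    intro i
    rw [UU_map]
    refine UU_cong n r D _ _ _ _ _ (fun s => ?_) ?_ i
    · exact ⟨PowerSeries.C (PowerSeries.C (MvPowerSeries.X s)), by simp [hA]⟩
    · intro i
      exact ⟨Xu i, by simp [hTu]⟩
  have hw : ∀ i, ∃ w b : S[X], UU n r D A Tu i ^ M = 1 + C ((p : S) ^ 2) * w + F * b := by
    intro i
    obtain ⟨x, y, hxy⟩ := hMU i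
    have h1 := congrArg (Polynomial.map (Int.castRingHom S)) hxy
    have hCp : (C ((p : ℤ) ^ 2) : ℤ[X]).map (Int.castRingHom S) = C ((p : S) ^ 2) := by simp
    simp only [Polynomial.map_pow, Polynomial.map_add, Polynomial.map_mul, Polynomial.map_one,
      hCp] at h1
    obtain ⟨e, he⟩ := hFc
    obtain ⟨e', he'⟩ := dvd_trans (hUc i) (sub_dvd_pow_sub_pow (UU n r D A Tu i)
      ((UU n r D a T₁ i).map (Int.castRingHom S)) M)
    refine ⟨x.map (Int.castRingHom S) + e' - e * y.map (Int.castRingHom S),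
      y.map (Int.castRingHom S), ?_⟩
    linear_combination h1 + he' - he * y.map (Int.castRingHom S)
  choose w b hwb using hw
  have hl : ∀ i, ∃ l : S[X], l.degree < F.degree ∧ LogMod p F (w i) l := fun i =>
    hell p S (Pool.Agent.LUB.H79.pc_mv p (Pool.Agent.LUB.H79.pc_mv p (Pool.Agent.LUB.H79.pc_mv p
      (Pool.Agent.LUB.H79.pc_base p) (Idx2 n r D)) Unit) Unit) F (w i) (FF_monic n r D A Tu)
  choose l hld hlm using hl
  refine ⟨M, hM, R, inferInstance, inferInstance,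
    fun J => (Matrix.of fun i k => (l i).coeff (J k)).det, ?_⟩
  intro f u ⟨hfam, hcls⟩ T hT0 hT1
  -- the specialization
  have hx : ∀ s, ∃ x : ℤ_[p], ‖x‖ < 1 ∧ (p : ℤ_[p]) ^ 2 * x = (par2 n D f u s : ℤ_[p]) - a s := by
    intro s
    obtain ⟨y, hy⟩ := hcls s
    refine ⟨(p : ℤ_[p]) * y, (PadicInt.norm_lt_one_iff_dvd _).2 (dvd_mul_right _ _), ?_⟩
    · have h1 := congrArg (fun z : ℤ => (z : ℤ_[p])) hy
      push_cast at h1
      rw [h1]
      ring
  choose x hx1 hx2 using hx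
  obtain ⟨φ, hφ⟩ := hevh p (Idx2 n r D) x hx1
  set Φ : S →+* PowerSeries (PowerSeries ℤ_[p]) :=
    PowerSeries.map (PowerSeries.map (φ : R →+* ℤ_[p])) with hΦ
  have hΦX1 : Φ (Xu 1) = PowerSeries.X := PowerSeries.map_X _
  have hΦX0 : Φ (Xu 0) = PowerSeries.C PowerSeries.X := by
    have h1 : Xu 0 = PowerSeries.C PowerSeries.X := rfl
    rw [h1, hΦ, PowerSeries.map_C, PowerSeries.map_X]
  have hcc : ∀ z : ℤ, (PowerSeries.C (PowerSeries.C (z : ℤ_[p])) :
      PowerSeries (PowerSeries ℤ_[p])) = (z : PowerSeries (PowerSeries ℤ_[p])) := by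
    intro z
    rw [map_intCast, map_intCast]
  have hΦT : ∀ i, Φ (Tu i) = T i := by
    intro i
    have h1 : Φ (Tu i) = (T₁ i : PowerSeries (PowerSeries ℤ_[p])) +
        (p : PowerSeries (PowerSeries ℤ_[p])) ^ 2 * Φ (Xu i) := by
      rw [hTu, map_add, map_mul, map_pow, map_natCast, map_intCast]
    rw [h1]
    fin_cases i
    · change _ = T 0
      rw [hT0, hcc]
      exact congrArg (fun z => (T₁ 0 : PowerSeries (PowerSeries ℤ_[p])) +
        (p : PowerSeries (PowerSeries ℤ_[p])) ^ 2 * z) hΦX0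
    · change _ = T 1
      rw [hT1, hcc]
      exact congrArg (fun z => (T₁ 1 : PowerSeries (PowerSeries ℤ_[p])) +
        (p : PowerSeries (PowerSeries ℤ_[p])) ^ 2 * z) hΦX1
  have hΦT' : (fun i => Φ (Tu i)) = T := funext hΦT
  have hΦA : ∀ s, Φ (A s) = (par2 n D f u s : PowerSeries (PowerSeries ℤ_[p])) := by
    intro s
    have h1 : Φ (PowerSeries.C (PowerSeries.C (MvPowerSeries.X s))) = PowerSeries.C (PowerSeries.C (x s)) := by
      rw [hΦ, PowerSeries.map_C, PowerSeries.map_C]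
      congr 2
      exact hφ s
    have h2 : (p : PowerSeries (PowerSeries ℤ_[p])) ^ 2 * PowerSeries.C (PowerSeries.C (x s)) =
        (par2 n D f u s : PowerSeries (PowerSeries ℤ_[p])) - a s := by
      have := congrArg (fun z : ℤ_[p] => (PowerSeries.C (PowerSeries.C z) :
        PowerSeries (PowerSeries ℤ_[p]))) (hx2 s)
      simpa using this
    have h3 : A s = (a s : S) + (p : S) ^ 2 * PowerSeries.C (PowerSeries.C (MvPowerSeries.X s)) := rfl
    rw [h3, map_add, map_mul, map_pow, map_natCast, map_intCast, h1, h2]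
    ring
  have hΦF : F.map Φ = spr2 f T := by
    rw [hF, FF_map, hΦT', spr_f n r D f u hfam]
    congr 1
    funext s
    exact hΦA s
  have hΦU : ∀ i, (UU n r D A Tu i).map Φ = spr2 (u i) T := by
    intro i
    rw [UU_map, hΦT', spr_u n r D f u hfam]
    congr 1
    funext s
    exact hΦA s
  have hΦalg : ∀ c : ℤ_[p], Φ (algebraMap ℤ_[p] S c) =
      algebraMap ℤ_[p] (PowerSeries (PowerSeries ℤ_[p])) c := by
    intro c
    have h1 : algebraMap ℤ_[p] S c = PowerSeries.C (PowerSeries.C (algebraMap ℤ_[p] R c)) := by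
      rw [PowerSeries.algebraMap_apply, PowerSeries.algebraMap_apply]
    have h2 : algebraMap ℤ_[p] (PowerSeries (PowerSeries ℤ_[p])) c =
        PowerSeries.C (PowerSeries.C c) := by
      rw [PowerSeries.algebraMap_apply, PowerSeries.algebraMap_apply]
      rfl
    rw [h1, h2, hΦ, PowerSeries.map_C, PowerSeries.map_C]
    congr 2
    exact φ.commutes c
  refine ⟨(φ : R →+* ℤ_[p]), fun i => (w i).map Φ, fun i => (b i).map Φ, fun i => (l i).map Φ,
    ?_, ?_, ?_, ?_⟩
  · intro i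
    have h1 := congrArg (Polynomial.map Φ) (hwb i)
    have hCp : (C ((p : S) ^ 2) : S[X]).map Φ = C ((p : PowerSeries (PowerSeries ℤ_[p])) ^ 2) := by simp
    simp only [Polynomial.map_pow, Polynomial.map_add, Polynomial.map_mul, Polynomial.map_one,
      hCp, hΦU, hΦF] at h1
    exact h1
  · intro i
    have h1 := logMod_map p Φ hΦalg F (w i) (l i) (hlm i)
    rw [hΦF] at h1
    exact h1
  · intro i
    refine lt_of_le_of_lt degree_map_le (lt_of_lt_of_eq (hld i) ?_)
    exact FF_degree n r D A Tu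
  · intro J
    rw [RingHom.map_det]
    refine congrArg Matrix.det (Matrix.ext fun i k => ?_)
    change Φ ((l i).coeff (J k)) = ((l i).map Φ).coeff (J k)
    rw [coeff_map]

end

end Pool.Agent.LPW.H42
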