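import Pool.Agent.LPW.StmtsE
import Pool.Agent.Helper42_LUB.Final
import Pool.Agent.Helper77_LPW.DIV
import Pool.Agent.Helper52_LPW.SUM
import Pool.Agent.Helper64_LPW.DET
import Pool.Agent.Helper94_LPW.ABS
import Pool.Agent.Helper85_LPW.TRN
import Pool.Agent.Helper18_LPW.NRM
import Pool.Agent.Helper38_LPW.LED
import Pool.Agent.Helper79_LPW.ENU
import Pool.Agent.Helper52_LPW.NUM
import Pool.Agent.Helper25_LPW.STP
import Pool.Agent.Helper10_LPW.BEZ
import Pool.Agent.Helper31_LPW.IFT
import Pool.Agent.Helper95_LPW.CLS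
import Pool.Agent.Helper19_LPW.MNO
import Pool.Agent.Helper41_LPW.NME
import Pool.Agent.Helper16_LPW.KRB
import Pool.Agent.Helper44_LPW.CFB
import Pool.Agent.Helper65_LPW.PRM
import Pool.Agent.Helper13_LPW.BPC
import Pool.Agent.Helper32_LPW.BPB
import Pool.Agent.Helper52_LPW.HRM
import Pool.Agent.Helper79_LPW.NRT
import Pool.Agent.Helper13_LPW.SPG
import Pool.Agent.Helper77_LPW.DSA
import Pool.Agent.Helper77_LPW.DSB
import Pool.Agent.Helper59_LPW.FRL
import Pool.Agent.Helper65_LPW.NO2
import Pool.Agent.Helper42_LPW.CL2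
import Pool.Agent.Helper38_LPW.NV2
import Pool.Agent.Helper84_LPW.COV
import Pool.Agent.Helper90_LPW.LNB
import Pool.Agent.Helper1_LPW.CUR
import Pool.Agent.Helper80_LPW.UPC
import Pool.Agent.Helper25_LPW.TRL
import Pool.Agent.Helper72_LPW.SLC
import Pool.Agent.Helper76_LPW.BX2

/-!
# Squad LPW: the theorems with the condition of full rank
-/

set_option autoImplicit false

namespace Pool.Agent.LPW.H42

open Pool.Agent.LUB.H42 (unpConcl criConcl nvnConcl)

theorem absConcl : AbsConcl := H94.absS (H64.det H52.sum) Pool.Agent.LUB.H22.dep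

theorem ledConcl : LedConcl := H38.led H85.trn H18.nrm

theorem stpConcl : StpConcl := H25.stp H77.div absConcl ledConcl H79.enu H52.num

theorem clsConcl : ClsConcl := H95.cls absConcl H31.ift

theorem cfbConcl : CfbConcl := H44.cfb H10.bez H16.krb H79.enu

theorem bpcConcl : BpcConcl := H13.bpc H10.bez clsConcl H19.mno

theorem bpbConcl : BpbConcl := H32.bpb H10.bez H41.nme cfbConcl H65.prm bpcConcl

theorem frlConcl : FrlConcl := H59.frl H52.hrm H79.nrt H13.spg H77.dsa (H77.dsb H77.dsa)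

theorem cl2Concl : Cl2Concl := cl2 Pool.Agent.LUB.H89.evh Pool.Agent.LUB.H35.ell unpConcl

theorem nv2Concl : Nv2Concl := H38.nv2 Pool.Agent.LUB.H89.evh nvnConcl

theorem covConcl : CovConcl :=
  H84.cov Pool.Agent.LUB.H89.evh H65.no2 Pool.Agent.LUB.H53.inv criConcl nv2Concl cl2Concl stpConcl

theorem curConcl : CurConcl := H1.cur (H90.lnb Pool.Agent.LUB.H42.main) bpbConcl

theorem upw : UpwStmt := H25.trl (H80.upc covConcl curConcl)

theorem bx2 : Bx2Concl := H76.bx2 H13.spg frlConcl upw H72.slc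

end Pool.Agent.LPW.H42
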