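import Pool.Agent.Helper42_LPW.MultiInd

/-!
# Squad LPW: families with `k ≥ 1` parameters
-/

set_option autoImplicit false

open Polynomial NumberField
open Pool.Agent.Helper85_Leo (LeopoldtAt)
open Pool.Agent.LUB (sp spr Exceptional Fam)

namespace Pool.Agent.LPW

/-- On every line through a point of `A` (with a direction `v` in the plane of the first two
coordinates) the units are multiplicatively independent modulo constants. -/
def IndOn {r k : ℕ} (f : (MvPolynomial (Fin k) ℤ)[X])
    (u : Fin r → (MvPolynomial (Fin k) ℤ)[X]) (A : Set (Fin k → ℤ)) : Prop :=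
  ∀ P ∈ A, ∀ v : Fin k → ℤ, v ≠ 0 → (∀ i : Fin k, 2 ≤ (i : ℕ) → v i = 0) →
    Ind (resm f P v) fun i => resm (u i) P v

/-- The exponent. -/
noncomputable def expo (k : ℕ) (ε : ℝ) : ℝ := if k = 1 then 0 else k - 3 / 2 + ε

/-- The theorem for families with `k ≥ 1` parameters. -/
def GenStmt : Prop := ∀ (p : ℕ) [Fact p.Prime] (k n r D : ℕ) (ε : ℝ), 1 ≤ k → 0 < ε → ∃ B : ℝ,
  ∀ (f : (MvPolynomial (Fin k) ℤ)[X]) (u : Fin r → (MvPolynomial (Fin k) ℤ)[X]),
  FamM n D f u → ∀ A : Set (Fin k → ℤ), IndOn f u A →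
  ∀ (lo : Fin k → ℤ) (N : ℕ), 1 ≤ N →
  (({P : Fin k → ℤ | P ∈ A ∧ (∀ i, lo i ≤ P i ∧ P i < lo i + N) ∧
    ExcPt p n (spm f P) (fun i => spm (u i) P)}).ncard : ℝ) ≤ B * (N : ℝ) ^ expo k ε

namespace H42

theorem sp_resm {k : ℕ} (f : (MvPolynomial (Fin k) ℤ)[X]) (P v : Fin k → ℤ) (t : ℤ) :
    sp (resm f P v) t = spm f (fun i => P i + t * v i) := by
  unfold sp resm spm
  rw [Polynomial.map_map]
  apply congrArg (fun φ => Polynomial.map φ f)
  apply MvPolynomial.ringHom_ext
  · intro r
    simp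
  · intro i
    simp [mul_comm]

theorem resm_coeff_deg {k : ℕ} (g : MvPolynomial (Fin k) ℤ) (D : ℕ) (h : g.totalDegree ≤ D)
    (P v : Fin k → ℤ) :
    ((MvPolynomial.eval₂Hom (Int.castRingHom ℤ[X]) (fun i => C (P i) + C (v i) * X)) g).natDegree
      ≤ D := by
  have h1 : (MvPolynomial.eval₂Hom (Int.castRingHom ℤ[X]) (fun i => C (P i) + C (v i) * X)) g =
      MvPolynomial.aeval (fun i => (C (P i) + C (v i) * X : ℤ[X])) g := by
    rw [MvPolynomial.aeval_def, MvPolynomial.coe_eval₂Hom]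
    apply congrArg (fun φ => MvPolynomial.eval₂ φ _ g)
    exact RingHom.ext_int _ _
  rw [h1]
  have h2 := MvPolynomial.aeval_natDegree_le (n := 1) g h
    (fun i => (C (P i) + C (v i) * X : ℤ[X])) (fun i => by
      refine (natDegree_add_le _ _).trans (max_le ?_ ?_)
      · rw [natDegree_C]
        exact Nat.zero_le _
      · exact (natDegree_C_mul_le _ _).trans natDegree_X_le)
  simpa using h2

theorem fam_resm {k n r D : ℕ} (f : (MvPolynomial (Fin k) ℤ)[X])
    (u : Fin r → (MvPolynomial (Fin k) ℤ)[X]) (h : FamM n D f u) (P v : Fin k → ℤ) :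
    Fam n D (resm f P v) (fun i => resm (u i) P v) := by
  obtain ⟨hmon, hdeg, hcf, hu⟩ := h
  refine ⟨hmon.map _, ?_, fun j => ?_, fun i => ⟨(natDegree_map_le).trans (hu i).1, fun j => ?_⟩⟩
  · rw [← hdeg]
    exact hmon.natDegree_map _
  · unfold resm spm
    rw [Polynomial.coeff_map]
    exact resm_coeff_deg _ D (hcf j) P v
  · unfold resm spm
    rw [Polynomial.coeff_map]
    exact resm_coeff_deg _ D ((hu i).2 j) P v

theorem gen (hinm : InmConcl) (hkpi : KpiStmt) : GenStmt := by
  intro p _ k n r D ε hk hε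
  obtain rfl | hk2 : k = 1 ∨ 2 ≤ k := by omega
  · -- one parameter
    obtain ⟨K, hK⟩ := hinm p n r D
    refine ⟨K, fun f u hfam A hA lo N hN => ?_⟩
    have he : expo 1 ε = 0 := by simp [expo]
    rw [he, Real.rpow_zero, mul_one]
    rcases Set.eq_empty_or_nonempty A with h0 | ⟨P₀, hP₀⟩
    · have : {P : Fin 1 → ℤ | P ∈ A ∧ (∀ i, lo i ≤ P i ∧ P i < lo i + N) ∧
          ExcPt p n (spm f P) (fun i => spm (u i) P)} = ∅ := by
        apply Set.eq_empty_of_forall_notMem
        rintro P ⟨h1, _⟩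
        rw [h0] at h1
        exact h1
      rw [this, Set.ncard_empty]
      simp
    · have hind := hA P₀ hP₀ 1 (by
        intro h
        have := congrFun h 0
        simp at this) (by
        intro i hi
        have := i.2
        omega)
      have hf := fam_resm f u hfam P₀ 1
      have h1 := hK _ _ hf hind
      have hfin : {t : ℤ | Exceptional p (resm f P₀ 1) (fun i => resm (u i) P₀ 1) t}.Finite :=
        Set.finite_of_encard_le_coe h1
      have hsub : {P : Fin 1 → ℤ | P ∈ A ∧ (∀ i, lo i ≤ P i ∧ P i < lo i + N) ∧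
          ExcPt p n (spm f P) (fun i => spm (u i) P)} ⊆
          (fun t : ℤ => (fun i => P₀ i + t * (1 : Fin 1 → ℤ) i : Fin 1 → ℤ)) ''
          {t : ℤ | Exceptional p (resm f P₀ 1) (fun i => resm (u i) P₀ 1) t} := by
        rintro P ⟨_, _, hPE⟩
        have hPt : (fun i => P₀ i + (P 0 - P₀ 0) * (1 : Fin 1 → ℤ) i : Fin 1 → ℤ) = P := by
          funext i
          have hi : i = 0 := Subsingleton.elim _ _
          subst hi
          simp
        refine ⟨P 0 - P₀ 0, ?_, hPt⟩
        obtain ⟨L, i1, i2, θ, h1, h2, h3, h4, h5, h6⟩ := hPE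
        refine ⟨L, i1, i2, θ, ?_, h2, ?_, ?_, h5, h6⟩
        · rw [sp_resm, hPt]
          exact h1
        · rw [hf.2.1]
          exact h3
        · intro i
          change IsUnit (aeval θ (sp (resm (u i) P₀ 1) (P 0 - P₀ 0)))
          rw [sp_resm, hPt]
          exact h4 i
      have h2 := (Set.ncard_le_ncard hsub (hfin.image _)).trans (Set.ncard_image_le hfin)
      have h3 : {t : ℤ | Exceptional p (resm f P₀ 1) (fun i => resm (u i) P₀ 1) t}.ncard ≤ K := by
        have h4 := hfin.cast_ncard_eq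
        rw [← h4] at h1
        exact_mod_cast h1
      exact_mod_cast h2.trans h3
  · obtain ⟨k', rfl⟩ := Nat.exists_eq_add_of_le hk2
    obtain ⟨B, hB⟩ := hkpi p k' n r D ε hε
    refine ⟨B, fun f u hfam A hA lo N hN => ?_⟩
    have he : expo (2 + k') ε = k' + 1 / 2 + ε := by
      have : ¬ (2 + k' = 1) := by omega
      rw [expo, if_neg this]
      push_cast
      ring
    rw [he]
    refine hB f u hfam A (fun P hP v hv hv2 => hA P hP v hv fun i hi => ?_) lo N hN
    have h1 : i = Fin.natAdd 2 ⟨(i : ℕ) - 2, by have := i.2; omega⟩ := by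
      apply Fin.ext
      simp
      omega
    rw [h1]
    exact hv2 _

end H42

end Pool.Agent.LPW
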