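import Pool.Agent.LPW.StmtsF
import Pool.Agent.Helper90_LPW.LNB

/-! Squad LPW, row LNI: exceptional points on lines (an edit of the row LNB of helper90). -/

set_option autoImplicit false

open Polynomial NumberField
open Pool.Agent.Helper85_Leo (LeopoldtAt)
open Pool.Agent.LUB (FullRank sp spr Exceptional MainStmt)

namespace Pool.Agent.LPW.H42

open Pool.Agent.LPW
open Pool.Agent.LPW.H90 (lin_form prim sp_res res_coeff_deg)

/-- LNI -/
theorem lni : LniStmt := by
  intro hMain p _ n r D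
  obtain ⟨K, hK⟩ := hMain p n r D
  refine ⟨K, ?_⟩
  intro f u hF A hA G hG
  obtain ⟨hmon, hdeg, hcf, hu⟩ := hF
  by_cases hne : ∃ P₀ : Fin 2 → ℤ, P₀ ∈ A ∧ MvPolynomial.eval (fun i => (P₀ i : ℚ)) G = 0
  swap
  · have hempty : {P : Fin 2 → ℤ | P ∈ A ∧ MvPolynomial.eval (fun i => (P i : ℚ)) G = 0 ∧
        ExcPt p n (spr2 f P) (fun i => spr2 (u i) P)} = ∅ := by
      apply Set.eq_empty_of_forall_notMem
      rintro P ⟨h1, h2, _⟩
      exact hne ⟨P, h1, h2⟩
    rw [hempty, Set.encard_empty]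
    exact bot_le
  obtain ⟨P₀, hP₀A, hP₀G⟩ := hne
  set α := MvPolynomial.coeff (Finsupp.single 0 1) G with hα
  set β := MvPolynomial.coeff (Finsupp.single 1 1) G with hβ
  have hform := lin_form G hG.le
  rw [← hα, ← hβ] at hform
  have hab : α ≠ 0 ∨ β ≠ 0 := by
    by_contra hcon
    rw [not_or, not_not, not_not] at hcon
    rw [hcon.1, hcon.2, map_zero, zero_mul, zero_mul, add_zero, add_zero] at hform
    rw [hform, MvPolynomial.totalDegree_C] at hG
    exact one_ne_zero hG.symm
  have heval : ∀ P : Fin 2 → ℤ, MvPolynomial.eval (fun i => (P i : ℚ)) G =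
      MvPolynomial.coeff 0 G + α * (P 0 : ℚ) + β * (P 1 : ℚ) := by
    intro P
    conv_lhs => rw [hform]
    simp
  obtain ⟨v, hv0, hv⟩ := prim α β hab
  have hresmon : (res f P₀ v).Monic := hmon.map _
  have hresdeg : (res f P₀ v).natDegree = n := by
    rw [← hdeg]
    exact hmon.natDegree_map _
  have hb := hK (res f P₀ v) (fun i => res (u i) P₀ v) ⟨hresmon, hresdeg,
    (fun j => by
      unfold res spr2
      rw [Polynomial.coeff_map]
      exact res_coeff_deg _ D (hcf j) P₀ v),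
    (fun i => ⟨(natDegree_map_le).trans (hu i).1, fun j => by
      unfold res spr2
      rw [Polynomial.coeff_map]
      exact res_coeff_deg _ D ((hu i).2 j) P₀ v⟩)⟩
    (hA P₀ hP₀A v hv0)
  have hsub : {P : Fin 2 → ℤ | P ∈ A ∧ MvPolynomial.eval (fun i => (P i : ℚ)) G = 0 ∧
        ExcPt p n (spr2 f P) (fun i => spr2 (u i) P)} ⊆
      (fun t : ℤ => (fun i => P₀ i + t * v i : Fin 2 → ℤ)) ''
        {t : ℤ | Exceptional p (res f P₀ v) (fun i => res (u i) P₀ v) t} := by
    rintro P ⟨_, hPG, hPE⟩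
    obtain ⟨t, ht⟩ := hv (fun i => P i - P₀ i) (by
      rw [heval] at hPG hP₀G
      push_cast
      linarith)
    have hPt : (fun i => P₀ i + t * v i : Fin 2 → ℤ) = P := by
      funext i
      have h0 : P i - P₀ i = t * v i := ht i
      show P₀ i + t * v i = P i
      rw [← h0]
      ring
    refine ⟨t, ?_, hPt⟩
    obtain ⟨L, i1, i2, θ, h1, h2, h3, h4, h5, h6⟩ := hPE
    refine ⟨L, i1, i2, θ, ?_, h2, ?_, ?_, h5, h6⟩
    · rw [sp_res, hPt]
      exact h1
    · rw [hresdeg]
      exact h3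
    · intro i
      show IsUnit (aeval θ (sp (res (u i) P₀ v) t))
      rw [sp_res, hPt]
      exact h4 i
  exact ((Set.encard_le_encard hsub).trans (Set.encard_image_le _ _)).trans hb

end Pool.Agent.LPW.H42
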