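import Pool.Agent.Helper42_LPW.Final
import Pool.Agent.Helper42_LPW.Lni
import Pool.Agent.Helper42_LPW.General
import Pool.Agent.Helper82_LPW.CHG
import Pool.Agent.Helper30_LPW.UNT
import Pool.Agent.Helper77_LPW.NEX
import Pool.Agent.Helper44_LPW.IRR
import Pool.Agent.Helper29_LPW.SPL
import Pool.Agent.Helper68_LPW.CNJ
import Pool.Agent.Helper1_LPW.GRO
import Pool.Agent.Helper1_LPW.DIO
import Pool.Agent.Helper15_LPW.FRI
import Pool.Agent.Helper21_LPW.FRU
import Pool.Agent.Helper86_LPW.NM1
import Pool.Agent.Helper13_LPW.INM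
import Pool.Agent.Helper49_LPW.CRG
import Pool.Agent.Helper95_LPW.NM2
import Pool.Agent.Helper24_LPW.IN2

/-!
# Squad LPW: the theorems with the algebraic condition
-/

set_option autoImplicit false

namespace Pool.Agent.LPW.H42

theorem friConcl : FriConcl :=
  H15.fri Pool.Agent.LUB.H32.sph Pool.Agent.LUB.H31.spf Pool.Agent.LUB.H22.bnd
    (H1.gro H82.chg) (H1.dio Pool.Agent.LUB.H22.dep)

theorem fruConcl : FruConcl := H21.fru H29.spl H68.cnj friConcl

theorem nm1Concl : Nm1Concl := H86.nm1 H82.chg H30.unt H77.nex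

theorem inmConcl : InmConcl := H13.inm Pool.Agent.LUB.H42.main H44.irr fruConcl nm1Concl

theorem lniConcl : LniConcl := lni inmConcl

theorem crgConcl : CrgConcl := H49.crg bpbConcl

theorem nm2Concl : Nm2Concl := H95.nm2 H82.chg H30.unt H77.nex

theorem in2Concl : In2Concl := H24.in2 upw H44.irr fruConcl lniConcl crgConcl nm2Concl

theorem kpiConcl : KpiStmt := kpi in2Concl

theorem genConcl : GenStmt := gen inmConcl kpiConcl

end Pool.Agent.LPW.H42

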