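import Pool.Agent.LPW.StmtsF
import Pool.Agent.Helper42_LPW.Multi

/-!
# Squad LPW: families with any number of parameters, algebraic condition
-/

set_option autoImplicit false

open Polynomial NumberField
open Pool.Agent.Helper85_Leo (LeopoldtAt)
open Pool.Agent.LUB (FullRank)

namespace Pool.Agent.LPW

/-- On every line through a point of `A`, parallel to the plane of the first two coordinates, the
units are multiplicatively independent modulo constants. -/
def PlaneInd {r k : ℕ} (f : (MvPolynomial (Fin (2 + k)) ℤ)[X])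
    (u : Fin r → (MvPolynomial (Fin (2 + k)) ℤ)[X]) (A : Set (Fin (2 + k) → ℤ)) : Prop :=
  ∀ P ∈ A, ∀ v : Fin (2 + k) → ℤ, v ≠ 0 → (∀ i : Fin k, v (Fin.natAdd 2 i) = 0) →
    Ind (resm f P v) fun i => resm (u i) P v

/-- The theorem for families with `k + 2` parameters. -/
def KpiStmt : Prop := ∀ (p : ℕ) [Fact p.Prime] (k n r D : ℕ) (ε : ℝ), 0 < ε → ∃ B : ℝ,
  ∀ (f : (MvPolynomial (Fin (2 + k)) ℤ)[X]) (u : Fin r → (MvPolynomial (Fin (2 + k)) ℤ)[X]),
  FamM n D f u → ∀ A : Set (Fin (2 + k) → ℤ), PlaneInd f u A →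
  ∀ (lo : Fin (2 + k) → ℤ) (N : ℕ), 1 ≤ N →
  (({P : Fin (2 + k) → ℤ | P ∈ A ∧ (∀ i, lo i ≤ P i ∧ P i < lo i + N) ∧
    ExcPt p n (spm f P) (fun i => spm (u i) P)}).ncard : ℝ) ≤ B * (N : ℝ) ^ (k + 1 / 2 + ε)

namespace H42

theorem kpi (hin2 : In2Concl) : KpiStmt := by
  intro p _ k n r D ε hε
  obtain ⟨B, hB⟩ := hin2 p n r D ε hε
  refine ⟨B, fun f u hfam A hA lo N hN => ?_⟩
  obtain ⟨hf1, hf2, hf3, hf4⟩ := hfam
  have hlow : ∀ (c : Fin k → ℤ) (i : Fin (2 + k)), (app (k := k)
      (MvPolynomial.X : Fin 2 → MvPolynomial (Fin 2) ℤ)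
      (fun i => MvPolynomial.C (c i)) i).totalDegree ≤ 1 := by
    intro c i
    refine Fin.addCases (fun j => ?_) (fun j => ?_) i
    · simp
    · have h1 : app (k := k) (MvPolynomial.X : Fin 2 → MvPolynomial (Fin 2) ℤ)
          (fun i => MvPolynomial.C (c i)) (Fin.natAdd 2 j) = MvPolynomial.C (c j) := by
        simp only [app, Fin.append_right]
      rw [h1, MvPolynomial.totalDegree_C]
      exact Nat.zero_le _
  -- the slices
  have hslice : ∀ c : Fin k → ℤ,
      (({P : Fin 2 → ℤ | app P c ∈ A ∧ (∀ i, lo (Fin.castAdd k i) ≤ P i ∧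
        P i < lo (Fin.castAdd k i) + N) ∧
        ExcPt p n (spm f (app P c)) (fun i => spm (u i) (app P c))}).ncard : ℝ) ≤
        B * (N : ℝ) ^ (1 / 2 + ε) := by
    intro c
    have hfam' : Fam2 n D (f.map (sl c)) (fun i => (u i).map (sl c)) := by
      refine ⟨hf1.map _, ?_, fun j => ?_, fun i => ⟨?_, fun j => ?_⟩⟩
      · rw [hf1.natDegree_map, hf2]
      · rw [coeff_map]
        exact (totalDegree_sub _ (hlow c) _).trans (hf3 j)
      · exact natDegree_map_le.trans (hf4 i).1
      · rw [coeff_map]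
        exact (totalDegree_sub _ (hlow c) _).trans ((hf4 i).2 j)
    have h1 := hB (f.map (sl c)) (fun i => (u i).map (sl c)) hfam' {P | app P c ∈ A} (by
      intro P hP v hv
      have h2 := hA (app P c) hP (app v 0) (by
        intro h0
        apply hv
        funext i
        have := congrFun h0 (Fin.castAdd k i)
        simpa using this) (by
        intro i
        simp)
      have h3 : ∀ g : (MvPolynomial (Fin (2 + k)) ℤ)[X],
          res (g.map (sl c)) P v = resm g (app P c) (app v 0) := fun g => res_app g c P v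
      simp only [h3]
      exact h2) (fun i => lo (Fin.castAdd k i)) N hN
    have h4 : ∀ (g : (MvPolynomial (Fin (2 + k)) ℤ)[X]) (P : Fin 2 → ℤ),
        spr2 (g.map (sl c)) P = spm g (app P c) := by
      intro g P
      rw [spm_app]
      simp
    simp only [h4, Set.mem_ofPred_eq] at h1
    exact h1
  -- counting
  set S : Set (Fin (2 + k) → ℤ) := {P | P ∈ A ∧ (∀ i, lo i ≤ P i ∧ P i < lo i + N) ∧
    ExcPt p n (spm f P) (fun i => spm (u i) P)} with hS
  have hfin : S.Finite := by
    refine Set.Finite.subset (Set.Finite.pi' fun i : Fin (2 + k) =>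
      Set.finite_Ico (lo i) (lo i + N)) ?_
    intro P hP i
    exact hP.2.1 i
  set tl : (Fin (2 + k) → ℤ) → (Fin k → ℤ) := fun P i => P (Fin.natAdd 2 i) with htl
  set T : Finset (Fin (2 + k) → ℤ) := hfin.toFinset with hT
  have hTS : S.ncard = T.card := Set.ncard_eq_toFinset_card _ hfin
  have hbox : T.image tl ⊆ Fintype.piFinset fun i : Fin k =>
      Finset.Ico (lo (Fin.natAdd 2 i)) (lo (Fin.natAdd 2 i) + N) := by
    intro c hc
    obtain ⟨P, hP, rfl⟩ := Finset.mem_image.1 hc
    rw [Fintype.mem_piFinset]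
    intro i
    rw [Finset.mem_Ico]
    exact ((Set.Finite.mem_toFinset _).1 hP).2.1 _
  have hcard : (T.image tl).card ≤ N ^ k := by
    refine (Finset.card_le_card hbox).trans (le_of_eq ?_)
    rw [Fintype.card_piFinset]
    simp
  have hfib : ∀ c ∈ T.image tl, ((T.filter fun P => tl P = c).card : ℝ) ≤
      B * (N : ℝ) ^ (1 / 2 + ε) := by
    intro c _
    refine le_trans ?_ (hslice c)
    have h5 : ((T.filter fun P => tl P = c : Finset (Fin (2 + k) → ℤ)) :
        Set (Fin (2 + k) → ℤ)) ⊆ (fun P : Fin 2 → ℤ => app P c) ''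
        {P : Fin 2 → ℤ | app P c ∈ A ∧ (∀ i, lo (Fin.castAdd k i) ≤ P i ∧
        P i < lo (Fin.castAdd k i) + N) ∧
        ExcPt p n (spm f (app P c)) (fun i => spm (u i) (app P c))} := by
      intro P hP
      rw [Finset.mem_coe, Finset.mem_filter] at hP
      obtain ⟨h6, h7⟩ := hP
      have h8 := (Set.Finite.mem_toFinset _).1 h6
      have h9 : app (fun i => P (Fin.castAdd k i)) c = P := by
        funext i
        refine Fin.addCases (fun j => ?_) (fun j => ?_) i
        · simp
        · simp [← h7, htl]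
      refine ⟨fun i => P (Fin.castAdd k i), ?_, h9⟩
      simp only [Set.mem_ofPred_eq, h9]
      exact ⟨h8.1, fun i => h8.2.1 _, h8.2.2⟩
    have hfin2 : ({P : Fin 2 → ℤ | app P c ∈ A ∧ (∀ i, lo (Fin.castAdd k i) ≤ P i ∧
        P i < lo (Fin.castAdd k i) + N) ∧
        ExcPt p n (spm f (app P c)) (fun i => spm (u i) (app P c))}).Finite := by
      refine Set.Finite.subset (Set.Finite.pi' fun i : Fin 2 =>
        Set.finite_Ico (lo (Fin.castAdd k i)) (lo (Fin.castAdd k i) + N)) ?_
      intro P hP i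
      exact hP.2.1 i
    rw [← Set.ncard_coe_finset]
    exact_mod_cast (Set.ncard_le_ncard h5 (hfin2.image _)).trans (Set.ncard_image_le hfin2)
  have hBN : 0 ≤ B * (N : ℝ) ^ (1 / 2 + ε) := le_trans (Nat.cast_nonneg _) (hslice 0)
  have hN0 : (0 : ℝ) < N := by exact_mod_cast hN
  rw [hTS, Finset.card_eq_sum_card_image tl T, Nat.cast_sum]
  refine (Finset.sum_le_sum hfib).trans ?_
  rw [Finset.sum_const, nsmul_eq_mul]
  have hcard' : ((T.image tl).card : ℝ) ≤ (N : ℝ) ^ k := by exact_mod_cast hcard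
  refine (mul_le_mul_of_nonneg_right hcard' hBN).trans (le_of_eq ?_)
  rw [add_assoc, Real.rpow_add hN0 (k : ℝ), Real.rpow_natCast]
  ring

end H42

end Pool.Agent.LPW
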